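import Mathlib
import Pool.Agent.Results.MP_725b87_an.NotPluripolar

set_option autoImplicit false

open Set Filter Topology Metric MeasureTheory
open Pool.Agent.Results.MP_725b87_an.NotPluripolar

namespace Pool.Agent.Sx28.UT

variable {n : ℕ}

/-- the paraboloid with opening `k` and centre `c` through the point `(z, u z)` lies above `u` on
the set `B` -/
def Touch (u : Cn n → EReal) (B : Set (Cn n)) (k : ℝ) (c z : Cn n) : Prop :=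
  ∀ w ∈ B, u w ≤ u z + ((k * (‖w - c‖ ^ 2 - ‖z - c‖ ^ 2) : ℝ) : EReal)

/-- the mean of the positive part of `2 cos θ - 1` -/
noncomputable def kap : ℝ :=
  (2 * Real.pi)⁻¹ * ∫ θ in (0 : ℝ)..(2 * Real.pi), max 0 (2 * Real.cos θ - 1)

theorem kap_pos : 0 < kap := by
  unfold kap
  have hpi : 0 < 2 * Real.pi := by positivity
  have : 0 < ∫ θ in (0 : ℝ)..(2 * Real.pi), max 0 (2 * Real.cos θ - 1) := by
    refine intervalIntegral.integral_pos hpi (by fun_prop) (fun θ _ => le_max_left _ _)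
      ⟨0, ⟨le_refl _, hpi.le⟩, ?_⟩
    simp
  positivity

theorem inner_circ (a b : Cn n) (ρ : ℝ) (hb : b ≠ 0) (θ : ℝ) :
    ‖a + Complex.exp ((θ : ℂ) * Complex.I) • (((ρ / ‖b‖ : ℝ) : ℂ) • b)‖ ^ 2 -
      ‖a - b + Complex.exp ((θ : ℂ) * Complex.I) • (((ρ / ‖b‖ : ℝ) : ℂ) • b)‖ ^ 2 =
    ‖a‖ ^ 2 - ‖a - b‖ ^ 2 + 2 * ρ * ‖b‖ * Real.cos θ := by
  have hb' : 0 < ‖b‖ := norm_pos_iff.2 hb
  rw [norm_add_sq (𝕜 := ℂ), norm_add_sq (𝕜 := ℂ) (a - b), inner_sub_left, map_sub]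
  have h1 : RCLike.re (inner ℂ b (Complex.exp ((θ : ℂ) * Complex.I) •
      (((ρ / ‖b‖ : ℝ) : ℂ) • b))) = ρ * ‖b‖ * Real.cos θ := by
    rw [inner_smul_right, inner_smul_right, inner_self_eq_norm_sq_to_K, RCLike.re_eq_complex_re]
    have e : Complex.exp ((θ : ℂ) * Complex.I) * (((ρ / ‖b‖ : ℝ) : ℂ) * (((‖b‖ : ℝ) : ℂ)) ^ 2) =
        ((ρ * ‖b‖ : ℝ) : ℂ) * Complex.exp ((θ : ℂ) * Complex.I) := by
      have hc : ((‖b‖ : ℝ) : ℂ) ≠ 0 := by exact_mod_cast hb'.ne'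
      push_cast
      field_simp
    have e2 := congrArg Complex.re e
    rw [Complex.re_ofReal_mul, Complex.exp_ofReal_mul_I_re] at e2
    exact e2
  rw [h1]
  ring

theorem touch_lip_key {Ω : Set (Cn n)} {u : Cn n → EReal} (hu : IsPSH Ω u) {a : Cn n} {R : ℝ}
    (hsub : closedBall a R ⊆ Ω) {k : ℝ} (hk : 0 < k) {c₁ c₂ z₁ z₂ : Cn n}
    (hz₁ : z₁ ∈ closedBall a R) (hz₂ : z₂ ∈ closedBall a R) (hb₁ : u z₁ ≠ ⊥) (hb₂ : u z₂ ≠ ⊥)
    (h₁ : Touch u (closedBall a R) k c₁ z₁) (h₂ : Touch u (closedBall a R) k c₂ z₂)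
    {ρ : ℝ} (hρ : 0 < ρ) (hρ1 : 2 * ‖z₁ - z₂‖ ≤ ρ) (hρ2 : closedBall z₁ ρ ⊆ closedBall a R) :
    ‖c₁ - c₂‖ * kap ≤ ρ := by
  obtain ⟨htop, -, hmean⟩ := hu
  rcases eq_or_ne c₁ c₂ with h | hne
  · rw [h, sub_self, norm_zero, zero_mul]; exact hρ.le
  set b : Cn n := c₂ - c₁ with hb
  have hbne : b ≠ 0 := sub_ne_zero.2 (Ne.symm hne)
  have hbn : 0 < ‖b‖ := norm_pos_iff.2 hbne
  set w : Cn n := ((ρ / ‖b‖ : ℝ) : ℂ) • b with hw
  have hwn : ‖w‖ = ρ := by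
    rw [hw, norm_smul, Complex.norm_real, Real.norm_eq_abs, abs_of_pos (by positivity)]
    field_simp
  obtain ⟨t₁, ht₁⟩ : ∃ t : ℝ, u z₁ = (t : EReal) :=
    ⟨(u z₁).toReal, (EReal.coe_toReal (htop _ (hsub hz₁)) hb₁).symm⟩
  obtain ⟨t₂, ht₂⟩ : ∃ t : ℝ, u z₂ = (t : EReal) :=
    ⟨(u z₂).toReal, (EReal.coe_toReal (htop _ (hsub hz₂)) hb₂).symm⟩
  unfold Touch at h₁ h₂
  rw [ht₁] at h₁
  rw [ht₂] at h₂
  have h12 : t₂ ≤ t₁ + k * (‖z₂ - c₁‖ ^ 2 - ‖z₁ - c₁‖ ^ 2) := by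
    have := h₁ z₂ hz₂
    rw [ht₂, ← EReal.coe_add, EReal.coe_le_coe_iff] at this
    exact this
  -- the affine difference
  have hL : ‖z₁ - c₂‖ ^ 2 - ‖z₁ - c₁‖ ^ 2 - (‖z₂ - c₂‖ ^ 2 - ‖z₂ - c₁‖ ^ 2) ≤
      2 * ‖b‖ * ‖z₁ - z₂‖ := by
    have e1 : ∀ z : Cn n, ‖z - c₂‖ ^ 2 = ‖z - c₁‖ ^ 2 - 2 * (inner ℂ (z - c₁) b).re + ‖b‖ ^ 2 := by
      intro z
      have : z - c₂ = (z - c₁) - b := by rw [hb]; abel
      rw [this, norm_sub_sq (𝕜 := ℂ)]; rfl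
    rw [e1 z₁, e1 z₂]
    have e2 : (inner ℂ (z₂ - c₁) b).re - (inner ℂ (z₁ - c₁) b).re = (inner ℂ (z₂ - z₁) b).re := by
      rw [← Complex.sub_re, ← inner_sub_left]; congr 2; abel
    have e3 : (inner ℂ (z₂ - z₁) b).re ≤ ‖z₁ - z₂‖ * ‖b‖ := by
      calc (inner ℂ (z₂ - z₁) b).re ≤ ‖inner ℂ (z₂ - z₁) b‖ := Complex.re_le_norm _
        _ ≤ ‖z₂ - z₁‖ * ‖b‖ := norm_inner_le_norm _ _
        _ = _ := by rw [norm_sub_rev]
    nlinarith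
  have hin : ∀ ζ : ℂ, ‖ζ‖ ≤ 1 → z₁ + ζ • w ∈ closedBall a R := by
    intro ζ hζ
    apply hρ2
    rw [mem_closedBall, dist_eq_norm, add_sub_cancel_left, norm_smul, hwn]
    have : ‖ζ‖ * ρ ≤ 1 * ρ := by gcongr
    linarith
  have hcirc : ∀ θ : ℝ, circ z₁ w θ ∈ closedBall a R := by
    intro θ
    apply hin
    rw [Complex.norm_exp_ofReal_mul_I]
  have hkey := hmean z₁ w (fun ζ hζ => hsub (hin ζ hζ))
    (fun θ => t₁ + k * (‖circ z₁ w θ - c₁‖ ^ 2 - ‖z₁ - c₁‖ ^ 2) -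
      (k * ‖b‖ * ρ) * max 0 (2 * Real.cos θ - 1))
    (by have := circ_continuous z₁ w; fun_prop) (by
      intro θ _
      rcases le_or_gt (2 * Real.cos θ - 1) 0 with hθ | hθ
      · rw [max_eq_left hθ, mul_zero, sub_zero]
        have := h₁ _ (hcirc θ)
        rw [← EReal.coe_add] at this
        exact this
      · rw [max_eq_right hθ.le]
        have := h₂ _ (hcirc θ)
        rw [← EReal.coe_add] at this
        refine this.trans ?_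
        rw [EReal.coe_le_coe_iff]
        have e := inner_circ (z₁ - c₁) b ρ hbne θ
        have e1 : circ z₁ w θ - c₁ = z₁ - c₁ + Complex.exp ((θ : ℂ) * Complex.I) • w := by
          unfold circ; abel
        have e2 : circ z₁ w θ - c₂ = z₁ - c₁ - b + Complex.exp ((θ : ℂ) * Complex.I) • w := by
          unfold circ; rw [hb]; abel
        have e3 : z₁ - c₁ - b = z₁ - c₂ := by rw [hb]; abel
        rw [← hw, ← e1, ← e2, e3] at e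
        have hbn0 := hbn.le
        have h5 : k * (‖b‖ * (2 * ‖z₁ - z₂‖)) ≤ k * (‖b‖ * ρ) := by gcongr
        have h6 : k * (‖circ z₁ w θ - c₁‖ ^ 2 - ‖circ z₁ w θ - c₂‖ ^ 2) =
            k * (‖z₁ - c₁‖ ^ 2 - ‖z₁ - c₂‖ ^ 2 + 2 * ρ * ‖b‖ * Real.cos θ) := by rw [e]
        have h7 := mul_le_mul_of_nonneg_left hL hk.le
        nlinarith)
  rw [ht₁, EReal.coe_le_coe_iff] at hkey
  have hpi : Real.pi ≠ 0 := Real.pi_ne_zero
  have hI : (2 * Real.pi)⁻¹ * ∫ θ in (0 : ℝ)..(2 * Real.pi),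
      (t₁ + k * (‖circ z₁ w θ - c₁‖ ^ 2 - ‖z₁ - c₁‖ ^ 2) -
      (k * ‖b‖ * ρ) * max 0 (2 * Real.cos θ - 1)) = t₁ + k * ρ ^ 2 - (k * ‖b‖ * ρ) * kap := by
    have hc := circ_continuous z₁ w
    have hm := mean_norm_sq (z₁ - c₁) w
    simp_rw [← circ_sub z₁ w c₁] at hm
    obtain ⟨D, hD⟩ : ∃ D : ℝ, D = t₁ - k * ‖z₁ - c₁‖ ^ 2 := ⟨_, rfl⟩
    have e : ∀ θ : ℝ, (t₁ + k * (‖circ z₁ w θ - c₁‖ ^ 2 - ‖z₁ - c₁‖ ^ 2) -
      (k * ‖b‖ * ρ) * max 0 (2 * Real.cos θ - 1)) = D +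
        (k * ‖circ z₁ w θ - c₁‖ ^ 2 - (k * ‖b‖ * ρ) * max 0 (2 * Real.cos θ - 1)) := by
      intro θ; rw [hD]; ring
    simp_rw [e]
    rw [intervalIntegral.integral_add (by simp)
        (by apply Continuous.intervalIntegrable; fun_prop),
      intervalIntegral.integral_sub (by apply Continuous.intervalIntegrable; fun_prop)
        (by apply Continuous.intervalIntegrable; fun_prop),
      intervalIntegral.integral_const, intervalIntegral.integral_const_mul,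
      intervalIntegral.integral_const_mul, smul_eq_mul, sub_zero, mul_add, mul_sub]
    have e1 : (2 * Real.pi)⁻¹ * (2 * Real.pi * D) = D := by field_simp
    have e2 : (2 * Real.pi)⁻¹ * (k * ∫ θ in (0 : ℝ)..(2 * Real.pi), ‖circ z₁ w θ - c₁‖ ^ 2) =
        k * (‖z₁ - c₁‖ ^ 2 + ‖w‖ ^ 2) := by rw [← hm]; ring
    have e3 : (2 * Real.pi)⁻¹ * (k * ‖b‖ * ρ *
        ∫ θ in (0 : ℝ)..(2 * Real.pi), max 0 (2 * Real.cos θ - 1)) = k * ‖b‖ * ρ * kap := by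
      unfold kap; ring
    rw [e1, e2, e3, hwn, hD]; ring
  rw [hI] at hkey
  have h8 : (k * ρ) * (‖b‖ * kap) ≤ (k * ρ) * ρ := by nlinarith
  have h9 := le_of_mul_le_mul_left h8 (by positivity)
  have h10 : ‖c₁ - c₂‖ = ‖b‖ := by rw [hb, norm_sub_rev]
  rw [h10]
  exact h9

end Pool.Agent.Sx28.UT
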