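import Mathlib
import Pool.Agent.Sx28.UT.Contact

set_option autoImplicit false

open Set Filter Topology Metric MeasureTheory
open scoped NNReal ENNReal
open Pool.Agent.Results.MP_725b87_an.NotPluripolar

namespace Pool.Agent.Sx28.UT

variable {n : ℕ}

theorem exists_touch {Ω : Set (Cn n)} {u : Cn n → EReal} (hu : IsPSH Ω u) {a : Cn n} {R : ℝ}
    (hR : 0 < R) (hsub : closedBall a R ⊆ Ω) {c y : Cn n} (hc : c ∈ closedBall a (R / 2))
    (hy : ‖y - c‖ ≤ R / 16) (hub : u y ≠ ⊥) :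
    ∃ k₀ : ℕ, ∀ k : ℕ, k₀ ≤ k → ∃ z ∈ closedBall a (5 * R / 8), u z ≠ ⊥ ∧
      Touch u (closedBall a R) k c z := by
  obtain ⟨htop, husc, -⟩ := hu
  have hya : y ∈ closedBall a R := by
    rw [mem_closedBall, dist_eq_norm] at hc ⊢
    calc ‖y - a‖ = ‖(y - c) + (c - a)‖ := by congr 1; abel
      _ ≤ ‖y - c‖ + ‖c - a‖ := norm_add_le _ _
      _ ≤ R := by linarith
  obtain ⟨M, hM⟩ : ∃ M : ℝ, ∀ w ∈ closedBall a R, u w ≤ (M : EReal) := by
    obtain ⟨m, hmK, hmax⟩ := (husc.mono hsub).exists_isMaxOn ⟨a, mem_closedBall_self hR.le⟩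
      (isCompact_closedBall a R)
    exact ⟨(u m).toReal, fun w hw => (hmax hw : u w ≤ u m).trans
      (EReal.le_coe_toReal (htop m (hsub hmK)))⟩
  obtain ⟨t, ht⟩ : ∃ t : ℝ, u y = (t : EReal) :=
    ⟨(u y).toReal, (EReal.coe_toReal (htop _ (hsub hya)) hub).symm⟩
  obtain ⟨k₀, hk₀⟩ := exists_nat_ge ((M - t) / (3 * R ^ 2 / 256))
  refine ⟨k₀ + 1, fun k hk => ?_⟩
  have hkpos : (0 : ℝ) < k := by
    have : (1 : ℝ) ≤ k := by exact_mod_cast (by omega : 1 ≤ k)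
    linarith
  have hkM : M - t ≤ k * (3 * R ^ 2 / 256) := by
    have h1 : (k₀ : ℝ) ≤ k := by exact_mod_cast (by omega : k₀ ≤ k)
    have h2 : (M - t) / (3 * R ^ 2 / 256) ≤ k := hk₀.trans h1
    rwa [div_le_iff₀ (by positivity)] at h2
  set F : Cn n → EReal := fun w => u w + ((-(k * ‖w - c‖ ^ 2) : ℝ) : EReal) with hF
  have hFusc : UpperSemicontinuousOn F (closedBall a R) := by
    apply UpperSemicontinuousOn.add' (husc.mono hsub)
    · have : Continuous (fun w : Cn n => ((-(k * ‖w - c‖ ^ 2) : ℝ) : EReal)) :=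
        continuous_coe_real_ereal.comp (by fun_prop)
      exact this.upperSemicontinuous.upperSemicontinuousOn _
    · intro z _
      apply EReal.continuousAt_add
      · right; exact EReal.coe_ne_bot _
      · right; exact EReal.coe_ne_top _
  obtain ⟨z, hz, hmax⟩ := hFusc.exists_isMaxOn ⟨a, mem_closedBall_self hR.le⟩
    (isCompact_closedBall a R)
  have hmax' : ∀ w ∈ closedBall a R, F w ≤ F z := fun w hw => hmax hw
  have hzb : u z ≠ ⊥ := by
    intro hb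
    have h1 := hmax' y hya
    simp only [hF, hb, EReal.bot_add, le_bot_iff] at h1
    rw [ht, ← EReal.coe_add] at h1
    exact EReal.coe_ne_bot _ h1
  obtain ⟨s, hs⟩ : ∃ s : ℝ, u z = (s : EReal) :=
    ⟨(u z).toReal, (EReal.coe_toReal (htop _ (hsub hz)) hzb).symm⟩
  have hsM : s ≤ M := by
    have := hM z hz
    rwa [hs, EReal.coe_le_coe_iff] at this
  have hyz : t + -(k * ‖y - c‖ ^ 2) ≤ s + -(k * ‖z - c‖ ^ 2) := by
    have h1 := hmax' y hya
    simp only [hF, hs, ht, ← EReal.coe_add, EReal.coe_le_coe_iff] at h1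
    exact h1
  have hzc : ‖z - c‖ ≤ R / 8 := by
    have h1 : ‖y - c‖ ^ 2 ≤ (R / 16) ^ 2 := by gcongr
    have h2 : k * ‖z - c‖ ^ 2 ≤ k * (R / 8) ^ 2 := by
      have := mul_le_mul_of_nonneg_left h1 hkpos.le
      nlinarith
    have h3 := le_of_mul_le_mul_left h2 hkpos
    exact (pow_le_pow_iff_left₀ (norm_nonneg _) (by positivity) two_ne_zero).1 h3
  refine ⟨z, ?_, hzb, ?_⟩
  · rw [mem_closedBall, dist_eq_norm] at hc ⊢
    calc ‖z - a‖ = ‖(z - c) + (c - a)‖ := by congr 1; abel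
      _ ≤ ‖z - c‖ + ‖c - a‖ := norm_add_le _ _
      _ ≤ 5 * R / 8 := by linarith
  · intro w hw
    by_cases hwb : u w = ⊥
    · rw [hwb]; exact bot_le
    obtain ⟨r, hr⟩ : ∃ r : ℝ, u w = (r : EReal) :=
      ⟨(u w).toReal, (EReal.coe_toReal (htop _ (hsub hw)) hwb).symm⟩
    have h1 := hmax' w hw
    simp only [hF, hs, hr, ← EReal.coe_add, EReal.coe_le_coe_iff] at h1
    rw [hr, hs, ← EReal.coe_add, EReal.coe_le_coe_iff]
    linarith

/-- the Lipschitz constant -/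
noncomputable def KK : ℝ≥0 := ⟨max (2 / kap) (16 / 3), le_trans (by norm_num) (le_max_right _ _)⟩

theorem KK_pos : 0 < KK := by
  rw [← NNReal.coe_pos]
  exact lt_of_lt_of_le (by norm_num) (le_max_right (2 / kap) (16 / 3))

theorem touch_lip {Ω : Set (Cn n)} {u : Cn n → EReal} (hu : IsPSH Ω u) {a : Cn n} {R : ℝ}
    (hR : 0 < R) (hsub : closedBall a R ⊆ Ω) {k : ℝ} (hk : 0 < k) {c₁ c₂ z₁ z₂ : Cn n}
    (hc₁ : c₁ ∈ closedBall a (R / 2)) (hc₂ : c₂ ∈ closedBall a (R / 2))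
    (hz₁ : z₁ ∈ closedBall a (5 * R / 8)) (hz₂ : z₂ ∈ closedBall a (5 * R / 8))
    (hb₁ : u z₁ ≠ ⊥) (hb₂ : u z₂ ≠ ⊥)
    (h₁ : Touch u (closedBall a R) k c₁ z₁) (h₂ : Touch u (closedBall a R) k c₂ z₂) :
    ‖c₁ - c₂‖ ≤ KK * ‖z₁ - z₂‖ := by
  have hmono : closedBall a (5 * R / 8) ⊆ closedBall a R :=
    closedBall_subset_closedBall (by linarith)
  have hball : ∀ ρ : ℝ, ρ ≤ 3 * R / 8 → closedBall z₁ ρ ⊆ closedBall a R := by
    intro ρ hρ
    apply closedBall_subset_closedBall'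
    rw [mem_closedBall] at hz₁
    linarith
  have hkap := kap_pos
  rcases lt_or_ge (3 * R / 16) ‖z₁ - z₂‖ with hd | hd
  · have h1 : ‖c₁ - c₂‖ ≤ R := by
      rw [mem_closedBall] at hc₁ hc₂
      rw [← dist_eq_norm]
      calc dist c₁ c₂ ≤ dist c₁ a + dist c₂ a := dist_triangle_right _ _ _
        _ ≤ R := by linarith
    have h2 : (16 / 3 : ℝ) * ‖z₁ - z₂‖ ≤ KK * ‖z₁ - z₂‖ := by
      gcongr
      exact le_max_right _ _
    linarith
  · rcases eq_or_lt_of_le (norm_nonneg (z₁ - z₂)) with h0 | h0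
    · rw [← h0, mul_zero]
      have h3 : ‖c₁ - c₂‖ * kap ≤ 0 := by
        apply le_of_forall_pos_le_add
        intro ε hε
        rw [zero_add]
        have hρ : 0 < min ε (3 * R / 8) := lt_min hε (by positivity)
        exact (touch_lip_key hu hsub hk (hmono hz₁) (hmono hz₂) hb₁ hb₂ h₁ h₂ hρ
          (by rw [← h0]; linarith) (hball _ (min_le_right _ _))).trans (min_le_left _ _)
      by_contra hcon
      push Not at hcon
      have := mul_pos hcon hkap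
      linarith
    · have h3 := touch_lip_key hu hsub hk (hmono hz₁) (hmono hz₂) hb₁ hb₂ h₁ h₂
        (ρ := 2 * ‖z₁ - z₂‖) (by positivity) le_rfl (hball _ (by linarith))
      have h4 : ‖c₁ - c₂‖ ≤ (2 / kap) * ‖z₁ - z₂‖ := by
        rw [← le_div_iff₀ hkap] at h3
        calc _ ≤ _ := h3
          _ = _ := by ring
      have h2 : (2 / kap) * ‖z₁ - z₂‖ ≤ KK * ‖z₁ - z₂‖ := by
        gcongr
        exact le_max_left _ _
      linarith

/-- points of the ball of radius `R` with a touching paraboloid -/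
def touchSet (u : Cn n → EReal) (a : Cn n) (R : ℝ) : Set (Cn n) :=
  {z | z ∈ closedBall a (5 * R / 8) ∧ u z ≠ ⊥ ∧ ∃ k : ℕ, ∃ c ∈ closedBall a (R / 2),
    Touch u (closedBall a R) k c z}

/-- the dimension -/
noncomputable def dm (n : ℕ) : ℕ := Module.finrank ℝ (Cn n)

theorem measure_ball_le {Ω : Set (Cn n)} {u : Cn n → EReal} (hu : IsPSH Ω u) {a : Cn n} {R : ℝ}
    (hR : 0 < R) (hsub : closedBall a R ⊆ Ω)
    (hnb : ∀ y ∈ Ω, ∀ ε > 0, ∃ y', dist y' y < ε ∧ u y' ≠ ⊥) :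
    Measure.hausdorffMeasure (dm n : ℝ) (closedBall a (R / 2)) ≤
      (KK : ℝ≥0∞) ^ (dm n : ℝ) * Measure.hausdorffMeasure (dm n : ℝ) (touchSet u a R) := by
  set μ : Measure (Cn n) := Measure.hausdorffMeasure (dm n : ℝ) with hμ
  set W : ℕ → Set (Cn n) := fun k => {c | c ∈ closedBall a (R / 2) ∧ ∀ k' : ℕ, k + 1 ≤ k' →
    ∃ z ∈ closedBall a (5 * R / 8), u z ≠ ⊥ ∧ Touch u (closedBall a R) k' c z} with hW
  have hWmono : Monotone W := by
    intro k l hkl c hc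
    exact ⟨hc.1, fun k' hk' => hc.2 k' (by omega)⟩
  have hWU : closedBall a (R / 2) ⊆ ⋃ k, W k := by
    intro c hc
    have hcΩ : c ∈ Ω := hsub (closedBall_subset_closedBall (by linarith) hc)
    obtain ⟨y, hy, hyb⟩ := hnb c hcΩ (R / 16) (by positivity)
    obtain ⟨k₀, hk₀⟩ := exists_touch hu hR hsub hc (by rw [← dist_eq_norm]; exact hy.le) hyb
    exact mem_iUnion.2 ⟨k₀, hc, fun k' hk' => hk₀ k' (by omega)⟩
  have hWk : ∀ k, μ (W k) ≤ (KK : ℝ≥0∞) ^ (dm n : ℝ) * μ (touchSet u a R) := by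
    intro k
    set A : Set (Cn n) := {z | z ∈ closedBall a (5 * R / 8) ∧ u z ≠ ⊥ ∧
      ∃ c ∈ closedBall a (R / 2), Touch u (closedBall a R) ((k + 1 : ℕ) : ℝ) c z} with hA
    have hkpos : (0 : ℝ) < ((k + 1 : ℕ) : ℝ) := by positivity
    have hf : ∀ z : Cn n, ∃ c : Cn n, z ∈ A → (c ∈ closedBall a (R / 2) ∧
        Touch u (closedBall a R) ((k + 1 : ℕ) : ℝ) c z) := by
      intro z
      by_cases hz : z ∈ A
      · obtain ⟨c, hc⟩ := hz.2.2
        exact ⟨c, fun _ => hc⟩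
      · exact ⟨z, fun h => absurd h hz⟩
    choose f hf using hf
    have hlip : LipschitzOnWith KK f A := by
      apply LipschitzOnWith.of_dist_le_mul
      intro z hz z' hz'
      rw [dist_eq_norm, dist_eq_norm]
      exact touch_lip hu hR hsub hkpos (hf z hz).1 (hf z' hz').1 hz.1 hz'.1 hz.2.1 hz'.2.1
        (hf z hz).2 (hf z' hz').2
    have hsubf : W k ⊆ f '' A := by
      rintro c ⟨hc, hcW⟩
      obtain ⟨z, hz, hzb, hT⟩ := hcW (k + 1) le_rfl
      have hzA : z ∈ A := ⟨hz, hzb, c, hc, hT⟩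
      refine ⟨z, hzA, ?_⟩
      have := touch_lip hu hR hsub hkpos (hf z hzA).1 hc hz hz hzb hzb (hf z hzA).2 hT
      rw [sub_self, norm_zero, mul_zero] at this
      exact sub_eq_zero.1 (norm_le_zero_iff.1 this)
    calc μ (W k) ≤ μ (f '' A) := measure_mono hsubf
      _ ≤ (KK : ℝ≥0∞) ^ (dm n : ℝ) * μ A := hlip.hausdorffMeasure_image_le (by positivity)
      _ ≤ _ := by
          gcongr
          rintro z ⟨h1, h2, c, hc, hT⟩
          exact ⟨h1, h2, k + 1, c, hc, hT⟩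
  calc μ (closedBall a (R / 2)) ≤ μ (⋃ k, W k) := measure_mono hWU
    _ = ⨆ k, μ (W k) := hWmono.measure_iUnion
    _ ≤ _ := iSup_le hWk

end Pool.Agent.Sx28.UT
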