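import Mathlib
import Pool.Agent.Sx28.UT.Meas

set_option autoImplicit false

open Set Filter Topology Metric MeasureTheory
open scoped NNReal ENNReal
open Pool.Agent.Results.MP_725b87_an.NotPluripolar

namespace Pool.Agent.Sx28.UT

variable {n : ℕ}

/-- pairs (point, centre) with a touching paraboloid on a ball of radius `r` -/
def PP (u : Cn n → EReal) (a : Cn n) (R k r : ℝ) : Set (Cn n × Cn n) :=
  {p | p.1 ∈ closedBall a (R / 2) ∧ p.2 ∈ closedBall a R ∧ Touch u (ball p.1 r) k p.2 p.1}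

theorem PP_closed {Ω : Set (Cn n)} {u : Cn n → EReal} (hu : IsPSH Ω u) {a : Cn n} {R : ℝ}
    (hR : 0 < R) (hsub : closedBall a R ⊆ Ω) (hΩ : IsOpen Ω) (k r : ℝ) :
    IsClosed (PP u a R k r) := by
  obtain ⟨htop, husc, -⟩ := hu
  apply IsSeqClosed.isClosed
  intro p q hp hpq
  have h1 : Tendsto (fun i => (p i).1) atTop (𝓝 q.1) := (continuous_fst.tendsto q).comp hpq
  have h2 : Tendsto (fun i => (p i).2) atTop (𝓝 q.2) := (continuous_snd.tendsto q).comp hpq
  have hq1 : q.1 ∈ closedBall a (R / 2) := isClosed_closedBall.mem_of_tendsto h1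
    (Eventually.of_forall fun i => (hp i).1)
  have hq2 : q.2 ∈ closedBall a R := isClosed_closedBall.mem_of_tendsto h2
    (Eventually.of_forall fun i => (hp i).2.1)
  refine ⟨hq1, hq2, ?_⟩
  intro w hw
  by_contra hcon
  push Not at hcon
  set c : ℝ := k * (‖w - q.2‖ ^ 2 - ‖q.1 - q.2‖ ^ 2) with hc
  obtain ⟨s, hs1, hs2⟩ := EReal.lt_iff_exists_real_btwn.1 hcon
  have hq1Ω : q.1 ∈ Ω := hsub (closedBall_subset_closedBall (by linarith) hq1)
  obtain ⟨b, hb1, hb2⟩ : ∃ b : ℝ, u q.1 < (b : EReal) ∧ b < s - c := by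
    by_cases hbot : u q.1 = ⊥
    · exact ⟨s - c - 1, by rw [hbot]; exact EReal.bot_lt_coe _, by linarith⟩
    · obtain ⟨t, ht⟩ : ∃ t : ℝ, u q.1 = (t : EReal) :=
        ⟨(u q.1).toReal, (EReal.coe_toReal (htop _ hq1Ω) hbot).symm⟩
      rw [ht, ← EReal.coe_add, EReal.coe_lt_coe_iff] at hs1
      refine ⟨(t + (s - c)) / 2, ?_, by linarith⟩
      rw [ht, EReal.coe_lt_coe_iff]; linarith
  have e1 : ∀ᶠ i in atTop, u (p i).1 < (b : EReal) := by
    have h3 := husc q.1 hq1Ω b hb1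
    rw [hΩ.nhdsWithin_eq hq1Ω] at h3
    exact h1.eventually h3
  have e2 : Tendsto (fun i => k * (‖w - (p i).2‖ ^ 2 - ‖(p i).1 - (p i).2‖ ^ 2)) atTop (𝓝 c) := by
    apply Tendsto.const_mul
    apply Tendsto.sub
    · exact ((tendsto_const_nhds.sub h2).norm).pow 2
    · exact ((h1.sub h2).norm).pow 2
  have e3 : ∀ᶠ i in atTop, k * (‖w - (p i).2‖ ^ 2 - ‖(p i).1 - (p i).2‖ ^ 2) < s - b :=
    e2.eventually (gt_mem_nhds (by linarith))
  have e4 : ∀ᶠ i in atTop, w ∈ ball (p i).1 r := by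
    have h3 : Tendsto (fun i => dist w (p i).1) atTop (𝓝 (dist w q.1)) :=
      tendsto_const_nhds.dist h1
    exact h3.eventually (gt_mem_nhds hw)
  obtain ⟨i, hi1, hi2, hi3⟩ := (e1.and (e2.eventually (gt_mem_nhds (by linarith : c < s - b))
    |>.and e4)).exists
  have h5 := (hp i).2.2 w hi3
  have h6 : u w < (s : EReal) := by
    calc u w ≤ _ := h5
      _ ≤ (b : EReal) + ((k * (‖w - (p i).2‖ ^ 2 - ‖(p i).1 - (p i).2‖ ^ 2) : ℝ) : EReal) := by
          gcongr
      _ < (s : EReal) := by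
          rw [← EReal.coe_add, EReal.coe_lt_coe_iff]; linarith
  exact absurd hs2 (not_lt.2 h6.le)

/-- the touching points -/
def GG (u : Cn n → EReal) (a : Cn n) (R : ℝ) : Set (Cn n) :=
  ⋃ (k : ℕ), ⋃ (j : ℕ), Prod.fst '' PP u a R k (1 / ((j : ℝ) + 1))

theorem GG_measurable {Ω : Set (Cn n)} {u : Cn n → EReal} (hu : IsPSH Ω u) {a : Cn n} {R : ℝ}
    (hR : 0 < R) (hsub : closedBall a R ⊆ Ω) (hΩ : IsOpen Ω) : MeasurableSet (GG u a R) := by
  apply MeasurableSet.iUnion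
  intro k
  apply MeasurableSet.iUnion
  intro j
  apply IsClosed.measurableSet
  apply IsCompact.isClosed
  apply IsCompact.image _ continuous_fst
  have hcomp : IsCompact (closedBall a (R / 2) ×ˢ closedBall a R : Set (Cn n × Cn n)) :=
    (isCompact_closedBall a (R / 2)).prod (isCompact_closedBall a R)
  exact hcomp.of_isClosed_subset (PP_closed hu hR hsub hΩ _ _) (fun p hp => ⟨hp.1, hp.2.1⟩)

theorem touchSet_subset {u : Cn n → EReal} {a : Cn n} {R : ℝ} {x : Cn n} {δ : ℝ}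
    (hδ : 0 < δ) (hsub : closedBall x δ ⊆ closedBall a (R / 2)) (hR : 0 < R) :
    touchSet u x δ ⊆ GG u a R ∩ closedBall x δ := by
  rintro z ⟨hz, hzb, k, c, hc, hT⟩
  have hzx : z ∈ closedBall x δ := closedBall_subset_closedBall (by linarith) hz
  refine ⟨?_, hzx⟩
  obtain ⟨j, hj⟩ := exists_nat_one_div_lt (show (0 : ℝ) < 3 * δ / 8 by positivity)
  refine mem_iUnion.2 ⟨k, mem_iUnion.2 ⟨j, (z, c), ⟨hsub hzx, ?_, ?_⟩, rfl⟩⟩
  · have h1 := hsub (closedBall_subset_closedBall (by linarith) hc)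
    exact closedBall_subset_closedBall (by linarith) h1
  · intro w hw
    apply hT
    rw [mem_ball] at hw
    rw [mem_closedBall] at hz ⊢
    calc dist w x ≤ dist w z + dist z x := dist_triangle _ _ _
      _ ≤ δ := by linarith

theorem GG_hasUpperTest {Ω : Set (Cn n)} {u : Cn n → EReal} (hu : IsPSH Ω u) {a : Cn n} {R : ℝ}
    (hR : 0 < R) (hsub : closedBall a R ⊆ Ω) (hΩ : IsOpen Ω)
    {z : Cn n} (hz : z ∈ GG u a R) : HasUpperTest Ω u z := by
  simp only [GG, mem_iUnion] at hz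
  obtain ⟨k, j, ⟨z', c⟩, ⟨h1, h2, hT⟩, rfl⟩ := hz
  simp only at h1 h2 hT ⊢
  have hzΩ : z' ∈ Ω := hsub (closedBall_subset_closedBall (by linarith) h1)
  refine ⟨ball z' (1 / ((j : ℝ) + 1)) ∩ Ω, fun w => k * ‖w - c‖ ^ 2, isOpen_ball.inter hΩ,
    inter_subset_right, ⟨mem_ball_self (by positivity), hzΩ⟩, ?_, ?_⟩
  · apply ContDiff.contDiffOn
    apply contDiff_const.mul
    exact (contDiff_id.sub contDiff_const).norm_sq ℝ
  · rintro y ⟨hy, hyΩ⟩
    have h3 := hT y hy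
    obtain ⟨htop, -, -⟩ := hu
    by_cases hyb : u y = ⊥
    · rw [hyb, sub_eq_add_neg, EReal.bot_add]; exact bot_le
    obtain ⟨r, hr⟩ : ∃ r : ℝ, u y = (r : EReal) :=
      ⟨(u y).toReal, (EReal.coe_toReal (htop _ hyΩ) hyb).symm⟩
    have hzb : u z' ≠ ⊥ := by
      intro hb
      rw [hb, EReal.bot_add, le_bot_iff] at h3
      exact hyb h3
    obtain ⟨s, hs⟩ : ∃ s : ℝ, u z' = (s : EReal) :=
      ⟨(u z').toReal, (EReal.coe_toReal (htop _ hzΩ) hzb).symm⟩
    rw [hr, hs] at h3 ⊢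
    rw [← EReal.coe_add, EReal.coe_le_coe_iff] at h3
    rw [← EReal.coe_sub, ← EReal.coe_sub, EReal.coe_le_coe_iff]
    linarith

/-- almost every point of the ball is a touching point -/
theorem null_ball {Ω : Set (Cn n)} {u : Cn n → EReal} (hu : IsPSH Ω u) {a : Cn n} {R : ℝ}
    (hR : 0 < R) (hsub : closedBall a R ⊆ Ω) (hΩ : IsOpen Ω)
    (hnb : ∀ y ∈ Ω, ∀ ε > 0, ∃ y', dist y' y < ε ∧ u y' ≠ ⊥) :
    Measure.hausdorffMeasure (dm n : ℝ) (ball a (R / 2) \ GG u a R) = 0 := by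
  have : (Measure.hausdorffMeasure (dm n : ℝ) : Measure (Cn n)).IsAddHaarMeasure :=
    isAddHaarMeasure_hausdorffMeasure
  set μ : Measure (Cn n) := Measure.hausdorffMeasure (dm n : ℝ) with hμ
  set S : Set (Cn n) := ball a (R / 2) \ GG u a R with hS
  have hGm := GG_measurable hu hR hsub hΩ
  have hSm : MeasurableSet S := measurableSet_ball.diff hGm
  by_contra hne
  have hres : μ.restrict S ≠ 0 := by
    rwa [Ne, Measure.restrict_eq_zero]
  have hdens := IsUnifLocDoublingMeasure.ae_tendsto_measure_inter_div μ S 1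
  have hmem := ae_restrict_mem (μ := μ) hSm
  have hNB : (ae (μ.restrict S)).NeBot := ae_neBot.2 hres
  obtain ⟨x, hx, hxS⟩ := (hdens.and hmem).exists
  obtain ⟨η, hη, hηsub⟩ := Metric.isOpen_iff.1 (isOpen_ball (x := a) (ε := R / 2)) x hxS.1
  set δ : ℕ → ℝ := fun j => (η / 2) / ((j : ℝ) + 1) with hδ
  have hδpos : ∀ j, 0 < δ j := fun j => by positivity
  have hδle : ∀ j, δ j ≤ η / 2 := fun j => by
    apply div_le_self (by positivity)
    have : (0 : ℝ) ≤ j := by positivity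
    linarith
  have hδlim : Tendsto δ atTop (𝓝[>] 0) := by
    rw [tendsto_nhdsWithin_iff]
    refine ⟨?_, Eventually.of_forall hδpos⟩
    exact Tendsto.div_atTop tendsto_const_nhds (tendsto_natCast_atTop_atTop.atTop_add
      tendsto_const_nhds)
  have hlim := hx (ι := ℕ) (l := atTop) (fun _ => x) δ hδlim
    (Eventually.of_forall fun j => mem_closedBall_self (by rw [one_mul]; exact (hδpos j).le))
  -- upper bound of the ratio
  set c₀ : ℝ≥0∞ := ((KK : ℝ≥0∞) ^ (dm n : ℝ) * 2 ^ dm n)⁻¹ with hc₀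
  have hKne : (KK : ℝ≥0∞) ^ (dm n : ℝ) ≠ 0 := by
    rw [ENNReal.rpow_natCast]
    exact pow_ne_zero _ (by exact_mod_cast KK_pos.ne')
  have hKnt : (KK : ℝ≥0∞) ^ (dm n : ℝ) ≠ ⊤ := by
    rw [ENNReal.rpow_natCast]
    exact ENNReal.pow_ne_top ENNReal.coe_ne_top
  have hprod_ne : (KK : ℝ≥0∞) ^ (dm n : ℝ) * 2 ^ dm n ≠ 0 := mul_ne_zero hKne (by positivity)
  have hprod_nt : (KK : ℝ≥0∞) ^ (dm n : ℝ) * 2 ^ dm n ≠ ⊤ :=
    ENNReal.mul_ne_top hKnt (ENNReal.pow_ne_top (by norm_num))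
  have hc₀pos : 0 < c₀ := ENNReal.inv_pos.2 hprod_nt
  have hbound : ∀ j, μ (S ∩ closedBall x (δ j)) / μ (closedBall x (δ j)) ≤ 1 - c₀ := by
    intro j
    have hsubj : closedBall x (δ j) ⊆ ball a (R / 2) :=
      (closedBall_subset_ball (by linarith [hδle j])).trans hηsub
    have hsubj' : closedBall x (δ j) ⊆ closedBall a (R / 2) := hsubj.trans ball_subset_closedBall
    have hsubΩ : closedBall x (δ j) ⊆ Ω :=
      hsubj'.trans ((closedBall_subset_closedBall (by linarith)).trans hsub)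
    have h1 := measure_ball_le hu (hδpos j) hsubΩ hnb
    have h2 : μ (touchSet u x (δ j)) ≤ μ (GG u a R ∩ closedBall x (δ j)) :=
      measure_mono (touchSet_subset (hδpos j) hsubj' hR)
    have hball : μ (closedBall x (δ j)) = 2 ^ dm n * μ (closedBall x (δ j / 2)) := by
      rw [Measure.addHaar_closedBall μ x (hδpos j).le,
        Measure.addHaar_closedBall μ x (by have := hδpos j; positivity : 0 ≤ δ j / 2), ← mul_assoc]
      congr 1
      have : (2 : ℝ≥0∞) ^ dm n = ENNReal.ofReal (2 ^ dm n) := by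
        rw [ENNReal.ofReal_pow (by norm_num)]; simp
      rw [this, ← ENNReal.ofReal_mul (by positivity)]
      congr 1
      unfold dm
      rw [← mul_pow]
      congr 1
      ring
    have hBpos : μ (closedBall x (δ j)) ≠ 0 := (measure_closedBall_pos μ x (hδpos j)).ne'
    have hBnt : μ (closedBall x (δ j)) ≠ ⊤ := measure_closedBall_lt_top.ne
    have h3 : c₀ * μ (closedBall x (δ j)) ≤ μ (GG u a R ∩ closedBall x (δ j)) := by
      rw [hc₀, ENNReal.inv_mul_le_iff hprod_ne hprod_nt, hball]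
      calc 2 ^ dm n * μ (closedBall x (δ j / 2)) ≤
          2 ^ dm n * ((KK : ℝ≥0∞) ^ (dm n : ℝ) * μ (touchSet u x (δ j))) := by gcongr
        _ ≤ 2 ^ dm n * ((KK : ℝ≥0∞) ^ (dm n : ℝ) * μ (GG u a R ∩ closedBall x (δ j))) := by
            gcongr
        _ = _ := by ring
    have h4 : μ (S ∩ closedBall x (δ j)) + μ (GG u a R ∩ closedBall x (δ j)) ≤
        μ (closedBall x (δ j)) := by
      rw [← measure_union _ (hGm.inter measurableSet_closedBall)]
      · exact measure_mono (union_subset inter_subset_right inter_subset_right)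
      · rw [Set.disjoint_left]
        rintro y ⟨hy1, _⟩ ⟨hy2, _⟩
        exact hy1.2 hy2
    rw [ENNReal.div_le_iff hBpos hBnt, ENNReal.sub_mul (by intros; exact hBnt), one_mul]
    apply ENNReal.le_sub_of_add_le_right (ENNReal.mul_ne_top (ENNReal.inv_ne_top.2 hprod_ne) hBnt)
    calc _ ≤ _ := by gcongr
      _ ≤ _ := h4
  have h5 : (1 : ℝ≥0∞) ≤ 1 - c₀ := le_of_tendsto hlim (Eventually.of_forall hbound)
  have h6 : (1 : ℝ≥0∞) - c₀ < 1 := ENNReal.sub_lt_self ENNReal.one_ne_top one_ne_zero hc₀pos.ne'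
  exact absurd h5 (not_le.2 h6)

/-- The exceptional set is Lebesgue null. -/
theorem exceptional_null {Ω : Set (Cn n)} (hΩ : IsOpen Ω) (hconn : IsPreconnected Ω)
    {u : Cn n → EReal} (hu : IsPSH Ω u) (hne : ∃ z ∈ Ω, u z ≠ ⊥) :
    volume (exceptional Ω u) = 0 := by
  have hnb : ∀ y ∈ Ω, ∀ ε > 0, ∃ y', dist y' y < ε ∧ u y' ≠ ⊥ := by
    intro y hy ε hε
    by_contra hcon
    push Not at hcon
    obtain ⟨r, hr, hrΩ⟩ := Metric.isOpen_iff.1 hΩ y hy
    obtain ⟨z, hz, hzne⟩ := hne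
    refine hzne (eq_bot_propagate Ω hΩ hconn u hu y (min r ε) (lt_min hr hε)
      ((ball_subset_ball (min_le_left _ _)).trans hrΩ) ?_ z hz)
    intro w hw
    exact hcon w (lt_of_lt_of_le hw (min_le_right _ _))
  apply measure_null_of_locally_null
  rintro x ⟨hx, -⟩
  obtain ⟨r, hr, hrΩ⟩ := Metric.isOpen_iff.1 hΩ x hx
  have hsub : closedBall x (r / 2) ⊆ Ω := (closedBall_subset_ball (by linarith)).trans hrΩ
  have hr2 : 0 < r / 2 := by positivity
  refine ⟨ball x (r / 2 / 2) ∩ exceptional Ω u,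
    inter_mem (mem_nhdsWithin_of_mem_nhds (ball_mem_nhds _ (by positivity)))
      self_mem_nhdsWithin, ?_⟩
  have h1 := null_ball hu hr2 hsub hΩ hnb
  have h2 : ball x (r / 2 / 2) ∩ exceptional Ω u ⊆ ball x (r / 2 / 2) \ GG u x (r / 2) := by
    rintro z ⟨hz1, hz2, hz3⟩
    exact ⟨hz1, fun hG => hz3 (GG_hasUpperTest hu hr2 hsub hΩ hG)⟩
  have h3 : Measure.hausdorffMeasure (dm n : ℝ) (ball x (r / 2 / 2) ∩ exceptional Ω u) = 0 :=
    measure_mono_null h2 h1
  have : (Measure.hausdorffMeasure (dm n : ℝ) : Measure (Cn n)).IsAddHaarMeasure :=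
    isAddHaarMeasure_hausdorffMeasure
  rw [Measure.isAddLeftInvariant_eq_smul (volume : Measure (Cn n))
    (Measure.hausdorffMeasure (dm n : ℝ)), Measure.smul_apply, h3, smul_zero]

end Pool.Agent.Sx28.UT
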